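import Pool.Agent.Helper46.NU.Goals1

open MeasureTheory Filter Topology Set
open scoped ENNReal

namespace NU.PkUPD

theorem upd : G_UPD := by
  intro C X _ _ μ _ c
  classical
  have hmeas : Measurable (fun p : X × (C → X) => Function.update p.2 c p.1) := by
    refine measurable_pi_iff.2 fun i => ?_
    by_cases h : i = c
    · subst h
      simpa using measurable_fst
    · simp only [Function.update_of_ne h]
      exact (measurable_pi_apply i).comp measurable_snd
  refine Measure.eq_infinitePi (μ := fun _ : C => μ) ?_
  intro s t ht
  have hms : MeasurableSet (Set.pi (s : Set C) t) :=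
    MeasurableSet.pi s.countable_toSet fun i _ => ht i
  rw [Measure.map_apply hmeas hms]
  have hpre : (fun p : X × (C → X) => Function.update p.2 c p.1) ⁻¹' (Set.pi (s : Set C) t) =
      (if c ∈ s then t c else univ) ×ˢ (Set.pi ((s.erase c : Finset C) : Set C) t) := by
    ext ⟨x, ω⟩
    simp only [mem_preimage, Set.mem_pi, mem_prod, Finset.mem_coe, Finset.mem_erase]
    constructor
    · intro h
      refine ⟨?_, fun i hi => ?_⟩
      · split_ifs with hc
        · have := h c hc
          simpa using this
        · trivial
      · have := h i hi.2
        rwa [Function.update_of_ne hi.1] at this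
    · rintro ⟨h1, h2⟩ i hi
      by_cases hic : i = c
      · subst hic
        rw [if_pos hi] at h1
        simpa using h1
      · rw [Function.update_of_ne hic]
        exact h2 i ⟨hic, hi⟩
  rw [hpre, Measure.prod_prod, Measure.infinitePi_pi (μ := fun _ : C => μ) (fun i _ => ht i)]
  split_ifs with hc
  · exact Finset.mul_prod_erase s (fun i => μ (t i)) hc
  · rw [measure_univ, one_mul, Finset.erase_eq_of_notMem hc]

end NU.PkUPD
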